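import Mathlib

set_option autoImplicit false

open Polynomial Set

namespace Pool.Agent.Results.MP_01622d_an.Counterexample

noncomputable def nrm (p : ℝ[X]) : ℝ := sSup ((fun x => |p.eval x|) '' Icc (-1) 1)

def Admissible (n : ℕ) (μ : ℝ → ℝ) (q : ℝ[X]) : Prop :=
  q.natDegree ≤ n ∧ ∀ x ∈ Icc (-1 : ℝ) 1, |q.eval x| ≤ μ x

def IsSnake (n : ℕ) (μ : ℝ → ℝ) (ω : ℝ[X]) : Prop :=
  Admissible n μ ω ∧ ∃ τ : Fin (n + 1) → ℝ, StrictAnti τ ∧ (∀ i, τ i ∈ Icc (-1 : ℝ) 1) ∧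
    ∀ i, ω.eval (τ i) = (-1) ^ (i : ℕ) * μ (τ i)

theorem result : ∃ (n k : ℕ) (μ : ℝ → ℝ) (ω q : ℝ[X]), 1 ≤ k ∧ k ≤ n ∧ Continuous μ ∧
    (∀ x, 0 < μ x) ∧ ω ≠ 0 ∧ IsSnake n μ ω ∧ Admissible n μ q ∧
    nrm (derivative^[k] ω) < nrm (derivative^[k] q) := by
  let ω : ℝ[X] := 1100 * X ^ 4 - 1670 * X ^ 2 + 630
  let q : ℝ[X] := 800 * X ^ 4 - 300 * X ^ 3 - 1448 * X ^ 2 + 243 * X + 648
  have e1 : ∀ x, ω.eval x = 1100 * x ^ 4 - 1670 * x ^ 2 + 630 := by simp [ω]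
  have e2 : ∀ x, q.eval x = 800 * x ^ 4 - 300 * x ^ 3 - 1448 * x ^ 2 + 243 * x + 648 := by simp [q]
  have e3 : ∀ x, (derivative ω).eval x = 4400 * x ^ 3 - 3340 * x := by
    intro x; simp [ω]; ring
  have e4 : ∀ x, (derivative q).eval x = 3200 * x ^ 3 - 900 * x ^ 2 - 2896 * x + 243 := by
    intro x; simp [q]; ring
  refine ⟨4, 1, fun x => max (max |ω.eval x| |q.eval x|) (1 / 2), ω, q, le_rfl, by norm_num,
    by fun_prop, fun x => lt_max_of_lt_right one_half_pos, fun h => ?_,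
    ⟨⟨by simp only [ω]; compute_degree, fun x _ => le_max_of_le_left (le_max_left _ _)⟩,
      ![1, 9 / 10, -1 / 2, -9 / 10, -1], ?_, fun i => ?_, fun i => ?_⟩,
    ⟨by simp only [q]; compute_degree, fun x _ => le_max_of_le_left (le_max_right _ _)⟩, ?_⟩
  · simpa [h] using e1 0
  · refine Fin.strictAnti_iff_succ_lt.2 fun i => ?_
    fin_cases i <;> simp <;> norm_num
  · fin_cases i <;> simp <;> norm_num
  · fin_cases i <;> simp only [e1, e2] <;> simp <;> norm_num [abs_of_neg, abs_of_pos, max_def]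
  · refine lt_of_le_of_lt (b := 1130) (Real.sSup_le ?_ (by norm_num))
      (lt_of_lt_of_le ?_ (le_csSup (isCompact_Icc.image (by fun_prop)).bddAbove
        ⟨13 / 20, by norm_num, rfl⟩))
    · rintro _ ⟨x, ⟨h1, h2⟩, rfl⟩
      simp only [Function.iterate_one, e3, abs_le]
      constructor <;> nlinarith [mul_nonneg (sub_nonneg.2 h1) (sq_nonneg (2 * x - 1)),
        mul_nonneg (sub_nonneg.2 h2) (sq_nonneg (2 * x + 1))]
    · simp only [Function.iterate_one, e4]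
      norm_num [lt_abs]

end Pool.Agent.Results.MP_01622d_an.Counterexample
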